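import Pool.Agent.R993.FTNum

set_option autoImplicit false

namespace Pool.Agent.Results.MP_303525_mp.Disproof

open Set

/-- `μ` is a Dirichlet eigenvalue of `-d²/dx² + V` on the interval `[a, b]`: there is a function
`y`, continuous on `[a, b]`, vanishing at `a` and `b`, twice differentiable on `(a, b)` and not
identically zero there, with `-y'' + V y = μ y` on `(a, b)`. -/
def IsDirichletEigenvalue (V : ℝ → ℝ) (a b μ : ℝ) : Prop :=
  ∃ y : ℝ → ℝ, ContinuousOn y (Icc a b) ∧ y a = 0 ∧ y b = 0 ∧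
    DifferentiableOn ℝ y (Ioo a b) ∧ DifferentiableOn ℝ (deriv y) (Ioo a b) ∧
    (∀ x ∈ Ioo a b, -deriv (deriv y) x + V x * y x = μ * y x) ∧
    ∃ x ∈ Ioo a b, y x ≠ 0

/-- `μ` is the `n`-th Dirichlet eigenvalue (`n ≥ 1`): it is an eigenvalue and exactly `n - 1`
eigenvalues lie strictly below it. -/
def IsNthEigenvalue (V : ℝ → ℝ) (a b : ℝ) (n : ℕ) (μ : ℝ) : Prop :=
  IsDirichletEigenvalue V a b μ ∧ {ν | IsDirichletEigenvalue V a b ν ∧ ν < μ}.encard + 1 = n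

/-- The four-term inequality `μ₁ + μ₄ ≥ μ₂ + μ₃` for the normalized eigenvalues `μₙ = λₙ / n²`
fails for a continuous, convex, nonnegative potential. -/
theorem result :
    ∃ (a b : ℝ) (V : ℝ → ℝ), a < b ∧ ContinuousOn V (Icc a b) ∧ ConvexOn ℝ (Icc a b) V ∧
      (∀ x ∈ Icc a b, 0 ≤ V x) ∧
      ∃ l₁ l₂ l₃ l₄ : ℝ,
        IsNthEigenvalue V a b 1 l₁ ∧ IsNthEigenvalue V a b 2 l₂ ∧
        IsNthEigenvalue V a b 3 l₃ ∧ IsNthEigenvalue V a b 4 l₄ ∧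
        l₁ / 1 ^ 2 + l₄ / 4 ^ 2 < l₂ / 2 ^ 2 + l₃ / 3 ^ 2 := by
  have hL := Pool.Agent.R993.FT.one_le_L
  have hN : ∀ n : ℕ, IsNthEigenvalue Pool.Agent.R993.FT.V 0 (4 * Real.pi) (n + 1)
      (Pool.Agent.R993.FT.zr (4 * Real.pi) hL (n + 1) ^ 2) := by
    intro n
    refine ⟨(Pool.Agent.R993.FT.isEig_iff_zr hL).2 ⟨n, rfl⟩, ?_⟩
    have h := Pool.Agent.R993.FT.encard_lt hL n
    have h2 : {ν | IsDirichletEigenvalue Pool.Agent.R993.FT.V 0 (4 * Real.pi) ν ∧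
      ν < Pool.Agent.R993.FT.zr (4 * Real.pi) hL (n + 1) ^ 2}.encard = n := h
    rw [h2]
    push_cast
    rfl
  refine ⟨0, 4 * Real.pi, Pool.Agent.R993.FT.V, by linarith, Pool.Agent.R993.FT.V_cont,
    Pool.Agent.R993.FT.V_convex, fun x _ => Pool.Agent.R993.FT.V_nonneg x,
    _, _, _, _, hN 0, hN 1, hN 2, hN 3, ?_⟩
  exact Pool.Agent.R993.FT.four_term

end Pool.Agent.Results.MP_303525_mp.Disproof
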